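import Mathlib

/-!
# Commuting graphs of bounded rank and unbounded girth

We answer Q1 of MP_eff4ce_al positively: there are finite star-free graphs with cycles, of
unbounded girth, that are commuting graphs of semigroups generated by at most 12 elements.

Construction.  Let `W` be a square-free word of even length `n`, over a fixed finite alphabet,
whose first letter occurs only once.  The semigroup is generated by the letters, by one more
element `q` and by two constants.  It consists of the nonempty factors `u` of `W`, of elements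
`u q v` (`u` a factor and `v` a prefix of `W`) and of a rectangular band of constants.  A product
of factors `u u'` that is not a factor of `W` is a constant, which remembers the longest prefix and
the longest suffix of `u u'` that are factors of `W`; and `q p q = q` for every nonempty prefix `p`
of `W`.  As `W` is square-free, two different elements that are not constants never commute.  The
elements `p q`, for the `n` nonempty prefixes `p` of `W`, are idempotents.  All the elements are
pairs of a map on left states (factors of `W` with a flag) and a map on right states (factors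
of the reversed word).  By identifying some left states, the idempotents `p q` commute with common
constants, along a cycle of length `n`, and there is no other cycle.
-/

namespace Pool.Agent.Results.MP_eff4ce_al.BoundedRankUnboundedGirth

section statement

/-- The commuting graph of a semigroup `S`: the vertices are the non-central elements, two distinct
ones being adjacent if and only if they commute. -/
def commutingGraph (S : Type) [Semigroup S] :
    SimpleGraph {x : S // ¬ ∀ y : S, x * y = y * x} where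
  Adj x y := x ≠ y ∧ (x : S) * (y : S) = (y : S) * (x : S)
  symm := ⟨fun _ _ h => ⟨h.1.symm, h.2.symm⟩⟩
  loopless := ⟨fun _ h => h.1 rfl⟩

/-- A graph is star-free if no vertex is adjacent to all the other vertices. -/
def IsStarFree {V : Type} (G : SimpleGraph V) : Prop := ∀ v, ∃ w, w ≠ v ∧ ¬ G.Adj v w

/-- `G` is the commuting graph of a semigroup generated by `n` elements. -/
def IsRealizedBy {V : Type} (G : SimpleGraph V) (n : ℕ) : Prop :=
  ∃ (S : Type) (_ : Semigroup S) (X : Finset S), X.card = n ∧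
    Subsemigroup.closure (X : Set S) = ⊤ ∧ Nonempty (G ≃g commutingGraph S)

/-- The rank of a graph: the least number of generators of a semigroup with this commuting
graph. -/
noncomputable def graphRank {V : Type} (G : SimpleGraph V) : ℕ := sInf {n | IsRealizedBy G n}

lemma isStarFree_commutingGraph (S : Type) [Semigroup S] : IsStarFree (commutingGraph S) := by
  rintro ⟨x, hx⟩
  have h := hx
  push Not at h
  obtain ⟨y, hy⟩ := h
  refine ⟨⟨y, fun h => hy (h x).symm⟩, ?_, ?_⟩
  · intro h
    rw [Subtype.mk.injEq] at h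
    subst h
    exact hy rfl
  · rintro ⟨-, h⟩
    exact hy h

end statement

section words

variable {α : Type}

open Classical in
/-- the longest prefix of `w` that is a factor of `V` -/
noncomputable def lp (V w : List α) : List α :=
  w.take (Nat.findGreatest (fun k => w.take k <:+: V) w.length)

lemma lp_prefix (V w : List α) : lp V w <+: w := List.take_prefix _ _

lemma lp_infix (V w : List α) : lp V w <:+: V := by
  classical
  have h := Nat.findGreatest_spec (P := fun k => w.take k <:+: V) (m := 0) (n := w.length)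
    (Nat.zero_le _) (by simp)
  exact h

lemma lp_max {V w x : List α} (hx : x <+: w) (hxV : x <:+: V) : x <+: lp V w := by
  classical
  have h1 : w.take x.length = x := (List.prefix_iff_eq_take.mp hx).symm
  have h2 : x.length ≤ Nat.findGreatest (fun k => w.take k <:+: V) w.length := by
    apply Nat.le_findGreatest hx.length_le
    rw [h1]; exact hxV
  have h3 : w.take x.length <+: w.take (Nat.findGreatest (fun k => w.take k <:+: V) w.length) :=
    List.take_prefix_take_left h2
  rw [h1] at h3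
  exact h3

lemma lp_of_infix {V w : List α} (h : w <:+: V) : lp V w = w :=
  (lp_prefix V w).eq_of_length_le (lp_max List.prefix_rfl h).length_le

lemma lp_append (V u x : List α) : lp V (u ++ lp V x) = lp V (u ++ x) := by
  have h1 : u ++ lp V x <+: u ++ x := (List.prefix_append_right_inj u).mpr (lp_prefix V x)
  have h2 : lp V (u ++ lp V x) <+: lp V (u ++ x) :=
    lp_max ((lp_prefix _ _).trans h1) (lp_infix _ _)
  have h3 : lp V (u ++ x) <+: u ++ lp V x := by
    have h4 := lp_prefix V (u ++ x)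
    have h5 := lp_infix V (u ++ x)
    rcases List.prefix_or_prefix_of_prefix h4 (List.prefix_append u x) with h6 | ⟨t, h6⟩
    · exact h6.trans (List.prefix_append _ _)
    · rw [← h6] at h4 h5 ⊢
      rw [List.prefix_append_right_inj] at h4 ⊢
      exact lp_max h4 (((List.suffix_append u t).isInfix).trans h5)
  exact h2.eq_of_length_le (lp_max h3 (lp_infix _ _)).length_le

/-- `lp` only depends on a prefix that is not a factor -/
lemma lp_of_prefix {V x w : List α} (hx : ¬ x <:+: V) (h : x <+: w) : lp V w = lp V x := by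
  have h1 : lp V x <+: lp V w := lp_max ((lp_prefix V x).trans h) (lp_infix _ _)
  have h2 : lp V w <+: x := by
    rcases List.prefix_or_prefix_of_prefix (lp_prefix V w) h with h3 | h3
    · exact h3
    · exact absurd (h3.isInfix.trans (lp_infix V w)) hx
  exact (h1.eq_of_length_le (lp_max h2 (lp_infix _ _)).length_le).symm

/-- the factors of a word -/
abbrev Fac (V : List α) : Type := {w : List α // w <:+: V}

instance (V : List α) : Finite (Fac V) := by
  classical
  refine Finite.of_injective (β := {w : List α // w ∈ V.sublists.toFinset})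
    (fun w => ⟨w.1, by simpa using w.2.sublist⟩) ?_
  intro a b h
  exact Subtype.ext (Subtype.mk.inj h)

/-- the action of words on factors by concatenation and truncation -/
noncomputable def act (V u : List α) (y : Fac V) : Fac V := ⟨lp V (u ++ y.1), lp_infix _ _⟩

lemma act_act (V u v : List α) (y : Fac V) : act V u (act V v y) = act V (u ++ v) y := by
  apply Subtype.ext
  simp only [act]
  rw [lp_append, List.append_assoc]

end words

section sequence

/-- an auxiliary sequence, defined for `n ≥ 1` by the number of twos in `n` modulo 2 and the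
odd part of `n` modulo 4 -/
def g2 (n : ℕ) : Bool × Bool :=
  if h : n % 2 = 0 ∧ n ≠ 0 then
    have : n / 2 < n := Nat.div_lt_self (by omega) (by norm_num)
    (!(g2 (n / 2)).1, (g2 (n / 2)).2)
  else (false, decide (n % 4 = 1))

lemma g2_odd {n : ℕ} (h : n % 2 = 1) : g2 n = (false, decide (n % 4 = 1)) := by
  rw [g2, dif_neg (by omega)]

lemma g2_even {n : ℕ} (h : n ≠ 0) : g2 (2 * n) = (!(g2 n).1, (g2 n).2) := by
  rw [g2, dif_pos (by omega)]
  simp

lemma g2_no_square (p : ℕ) : 2 ≤ p → ∀ i, 1 ≤ i → ∃ j, j < p ∧ g2 (i + j) ≠ g2 (i + j + p) := by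
  induction p using Nat.strong_induction_on with
  | _ p ih =>
    intro hp i hi
    by_contra hcon
    push Not at hcon
    rcases Nat.even_or_odd' p with ⟨q, rfl | rfl⟩
    · rcases Nat.lt_or_ge q 2 with hq | hq
      · obtain rfl : q = 1 := by omega
        rcases Nat.even_or_odd' i with ⟨m, rfl | rfl⟩
        · have h := hcon 1 (by norm_num)
          rw [g2_odd (by omega), g2_odd (by omega)] at h
          simp only [Prod.mk.injEq, true_and, decide_eq_decide] at h
          omega
        · have h := hcon 0 (by norm_num)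
          rw [g2_odd (by omega), g2_odd (by omega)] at h
          simp only [Prod.mk.injEq, true_and, decide_eq_decide] at h
          omega
      · obtain ⟨j, hj, hne⟩ := ih q (by omega) hq ((i + 1) / 2) (by omega)
        apply hne
        have h1 : i ≤ 2 * ((i + 1) / 2 + j) := by omega
        obtain ⟨k, hk⟩ := Nat.exists_eq_add_of_le h1
        have h := hcon k (by omega)
        rw [← hk, ← mul_add, g2_even (by omega), g2_even (by omega)] at h
        simp only [Prod.mk.injEq] at h
        apply Prod.ext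
        · have := h.1
          revert this
          cases (g2 ((i + 1) / 2 + j)).1 <;> cases (g2 ((i + 1) / 2 + j + q)).1 <;> simp
        · exact h.2
    · -- odd period
      have key : ∀ m, m ≠ 0 → (g2 (2 * m)).1 = false → m % 2 = 0 := by
        intro m hm h
        by_contra hc
        rw [g2_even hm, g2_odd (by omega)] at h
        simp at h
      rcases Nat.even_or_odd' i with ⟨m, rfl | rfl⟩
      · have h0 := hcon 0 (by omega)
        have h2 := hcon 2 (by omega)
        rw [g2_odd (n := 2 * m + 0 + (2 * q + 1)) (by omega)] at h0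
        rw [g2_odd (n := 2 * m + 2 + (2 * q + 1)) (by omega)] at h2
        have e0 := key m (by omega) (by rw [add_zero] at h0; rw [h0])
        have e2 := key (m + 1) (by omega) (by
          rw [show 2 * (m + 1) = 2 * m + 2 by ring]; rw [h2])
        omega
      · have h0 := hcon 0 (by omega)
        have h2 := hcon 2 (by omega)
        rw [g2_odd (n := 2 * m + 1 + 0) (by omega)] at h0
        rw [g2_odd (n := 2 * m + 1 + 2) (by omega)] at h2
        have e0 := key (m + q + 1) (by omega) (by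
          rw [show 2 * (m + q + 1) = 2 * m + 1 + 0 + (2 * q + 1) by ring]; rw [← h0])
        have e2 := key (m + q + 2) (by omega) (by
          rw [show 2 * (m + q + 2) = 2 * m + 1 + 2 + (2 * q + 1) by ring]; rw [← h2])
        omega

/-- the alphabet -/
abbrev A : Type := Option (Bool × Bool × Bool)

/-- a square-free sequence in which the letter `none` only occurs at the beginning -/
def sq (n : ℕ) : A := if n = 0 then none else some (decide (n % 2 = 0), g2 n)

lemma sq_zero : sq 0 = none := rfl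

lemma sq_ne_none {n : ℕ} (h : n ≠ 0) : sq n ≠ none := by simp [sq, h]

lemma sq_no_square {p i : ℕ} (hp : 1 ≤ p) : ∃ j, j < p ∧ sq (i + j) ≠ sq (i + j + p) := by
  rcases Nat.eq_zero_or_pos i with rfl | hi
  · exact ⟨0, hp, fun h => sq_ne_none (n := 0 + 0 + p) (by omega) (h ▸ rfl)⟩
  · rcases Nat.lt_or_ge p 2 with h1 | h1
    · obtain rfl : p = 1 := by omega
      refine ⟨0, hp, fun h => ?_⟩
      rw [sq, sq, if_neg (by omega), if_neg (by omega)] at h
      simp only [Option.some.injEq, Prod.mk.injEq, decide_eq_decide] at h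
      omega
    · obtain ⟨j, hj, hne⟩ := g2_no_square p h1 i hi
      refine ⟨j, hj, fun h => hne ?_⟩
      rw [sq, sq, if_neg (by omega), if_neg (by omega)] at h
      simp only [Option.some.injEq, Prod.mk.injEq] at h
      exact h.2

/-- the word -/
def W (n : ℕ) : List A := (List.range n).map sq

lemma W_length (n : ℕ) : (W n).length = n := by simp [W]

lemma W_getElem? {n i : ℕ} (h : i < n) : (W n)[i]? = some (sq i) := by
  simp [W, h]

/-- `none` only occurs at the beginning -/
lemma not_infix_of_none {n : ℕ} {u : List A} (hu : u ≠ []) : ¬ (u ++ [none]) <:+: W n := by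
  rintro ⟨s, t, h⟩
  have h1 : (W n)[s.length + u.length]? = some none := by
    rw [← h]
    simp
  have h2 : s.length + u.length < n := by
    have := congrArg List.length h
    rw [W_length] at this
    simp at this
    omega
  rw [W_getElem? h2] at h1
  have h3 := Option.some.inj h1
  refine sq_ne_none ?_ h3
  have := List.length_pos_iff.mpr hu
  omega

/-- the word is square-free -/
lemma not_infix_square {n : ℕ} {u : List A} (hu : u ≠ []) : ¬ (u ++ u) <:+: W n := by
  rintro ⟨s, t, h⟩
  have hu' := List.length_pos_iff.mpr hu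
  obtain ⟨j, hj, hne⟩ := sq_no_square (i := s.length) (p := u.length) hu'
  have hlen := congrArg List.length h
  rw [W_length] at hlen
  simp only [List.length_append] at hlen
  apply hne
  have e1 : ∀ i, i < u.length → (s ++ (u ++ u) ++ t)[s.length + i]? = u[i]? := by
    intro i hi
    rw [List.append_assoc, List.getElem?_append_right (by omega), Nat.add_sub_cancel_left,
      List.append_assoc, List.getElem?_append_left hi]
  have e2 : ∀ i, i < u.length → (s ++ (u ++ u) ++ t)[s.length + i + u.length]? = u[i]? := by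
    intro i hi
    rw [List.append_assoc, List.getElem?_append_right (by omega),
      show s.length + i + u.length - s.length = u.length + i by omega,
      List.append_assoc, List.getElem?_append_right (by omega), Nat.add_sub_cancel_left,
      List.getElem?_append_left hi]
  have h1 : (W n)[s.length + j]? = (W n)[s.length + j + u.length]? := by
    rw [← h, e1 j hj, e2 j hj]
  rw [W_getElem? (by omega), W_getElem? (by omega)] at h1
  exact Option.some.inj h1

end sequence

section construction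

/-- the nonempty prefixes of the word -/
def IsP (n : ℕ) (y : List A) : Prop := y ≠ [] ∧ y <+: W n

lemma IsP.length_le {n : ℕ} {y : List A} (h : IsP n y) : y.length ≤ n := by
  have := h.2.length_le
  rwa [W_length] at this

lemma IsP.one_le {n : ℕ} {y : List A} (h : IsP n y) : 1 ≤ y.length :=
  List.length_pos_iff.mpr h.1

lemma IsP.eq_take {n : ℕ} {y : List A} (h : IsP n y) : y = (W n).take y.length :=
  List.prefix_iff_eq_take.mp h.2

lemma take_length {n k : ℕ} (h : k ≤ n) : ((W n).take k).length = k := by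
  rw [List.length_take, W_length]; omega

lemma isP_take {n k : ℕ} (h1 : 1 ≤ k) (h2 : k ≤ n) : IsP n ((W n).take k) :=
  ⟨by rw [← List.length_pos_iff, take_length h2]; omega, List.take_prefix _ _⟩

lemma IsP.exists_cons {n : ℕ} {y : List A} (h : IsP n y) : ∃ t, y = none :: t := by
  have h0 : y[0]? = (W n)[0]? := by
    obtain ⟨t, ht⟩ := h.2
    rw [← ht, List.getElem?_append_left h.one_le]
  rw [W_getElem? (lt_of_lt_of_le h.one_le h.length_le)] at h0
  cases y with
  | nil => exact absurd rfl h.1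
  | cons a t =>
    refine ⟨t, ?_⟩
    simp only [List.getElem?_cons_zero, Option.some.injEq] at h0
    rw [h0, sq_zero]

lemma not_infix_append {n : ℕ} {v y : List A} (hv : v ≠ []) (hy : IsP n y) :
    ¬ (v ++ y) <:+: W n := by
  obtain ⟨t, rfl⟩ := hy.exists_cons
  intro h
  apply not_infix_of_none (n := n) hv
  refine List.IsInfix.trans ?_ h
  apply List.IsPrefix.isInfix
  rw [List.prefix_append_right_inj]
  exact ⟨t, rfl⟩

lemma lp_append_of_isP {n : ℕ} {v y : List A} (hv : v ≠ []) (hy : IsP n y) :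
    lp (W n) (v ++ y) = lp (W n) (v ++ [none]) := by
  obtain ⟨t, rfl⟩ := hy.exists_cons
  apply lp_of_prefix (not_infix_of_none (n := n) hv)
  rw [List.prefix_append_right_inj]
  exact ⟨t, rfl⟩

/-- the two matchings whose union is the cycle `1, 2, ..., n` -/
def rho (n : ℕ) (c : Fin 3) (k : ℕ) : ℕ :=
  if c = 0 then k else if c = 1 then 2 * ((k - 1) / 2) + 1 else if k = 1 then n else 2 * (k / 2)

lemma rho_one (n k : ℕ) : rho n 1 k = 2 * ((k - 1) / 2) + 1 := by
  rw [rho, if_neg (by decide), if_pos rfl]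

lemma rho_two (n k : ℕ) : rho n 2 k = if k = 1 then n else 2 * (k / 2) := by
  rw [rho, if_neg (by decide), if_neg (by decide)]

lemma rho_bounds {n k : ℕ} (c : Fin 3) (hn : n % 2 = 0) (h1 : 1 ≤ k) (h2 : k ≤ n) :
    1 ≤ rho n c k ∧ rho n c k ≤ n := by
  unfold rho
  split_ifs <;> omega

lemma rho_rho {n k : ℕ} (c : Fin 3) (hn : n % 2 = 0) (h1 : 1 ≤ k) (_h2 : k ≤ n) :
    rho n c (rho n c k) = rho n c k := by
  unfold rho
  split_ifs <;> omega

open Classical in
/-- normal forms of the first component of the left states -/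
noncomputable def norm (n : ℕ) (z : Option (Fin 3)) (y : Fac (W n)) : Fac (W n) :=
  match z with
  | none => y
  | some c => if IsP n y.1 then
      ⟨(W n).take (rho n c y.1.length), (List.take_prefix _ _).isInfix⟩ else y

variable {n : ℕ}

lemma norm_none (y : Fac (W n)) : norm n none y = y := rfl

lemma norm_of_not {z : Option (Fin 3)} {y : Fac (W n)} (h : ¬ IsP n y.1) : norm n z y = y := by
  unfold norm
  cases z with
  | none => rfl
  | some c => simp [h]

lemma norm_of_isP {c : Fin 3} {y : Fac (W n)} (h : IsP n y.1) :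
    (norm n (some c) y).1 = (W n).take (rho n c y.1.length) := by
  unfold norm
  simp [h]

lemma norm_zero {y : Fac (W n)} : norm n (some 0) y = y := by
  by_cases h : IsP n y.1
  · apply Subtype.ext
    rw [norm_of_isP h]
    conv_rhs => rw [h.eq_take]
    simp [rho]
  · exact norm_of_not h

lemma isP_norm (hn : n % 2 = 0) (z : Option (Fin 3)) (y : Fac (W n)) :
    IsP n (norm n z y).1 ↔ IsP n y.1 := by
  by_cases h : IsP n y.1
  · cases z with
    | none => rfl
    | some c =>
      rw [norm_of_isP h]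
      obtain ⟨h1, h2⟩ := rho_bounds c hn h.one_le h.length_le
      exact ⟨fun _ => h, fun _ => isP_take h1 h2⟩
  · rw [norm_of_not h]

lemma norm_norm (hn : n % 2 = 0) (z : Option (Fin 3)) (y : Fac (W n)) :
    norm n z (norm n z y) = norm n z y := by
  by_cases h : IsP n y.1
  · cases z with
    | none => rfl
    | some c =>
      apply Subtype.ext
      obtain ⟨h1, h2⟩ := rho_bounds c hn h.one_le h.length_le
      rw [norm_of_isP ((isP_norm hn _ _).mpr h), norm_of_isP h, take_length h2,
        rho_rho c hn h.one_le h.length_le]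
  · rw [norm_of_not h, norm_of_not h]

/-- left states -/
abbrev IL (n : ℕ) : Type := Fac (W n) × Option (Fin 3)

/-- right states -/
abbrev IR (n : ℕ) : Type := Fac (W n).reverse

/-- normal form of a left state -/
noncomputable def nu (x : IL n) : IL n := (norm n x.2 x.1, x.2)

lemma nu_nu (hn : n % 2 = 0) (x : IL n) : nu (nu x) = nu x := by
  unfold nu
  simp only [norm_norm hn]

open Classical in
/-- left action of the words on the left states (without normalisation) -/
noncomputable def actL (u : List A) (x : IL n) : IL n :=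
  (act (W n) u x.1, if (u ++ x.1.1) <:+: W n then x.2 else none)

lemma actL_actL (u v : List A) (x : IL n) : actL u (actL v x) = actL (u ++ v) x := by
  unfold actL
  refine Prod.ext (act_act _ _ _ _) ?_
  simp only
  by_cases h : (v ++ x.1.1) <:+: W n
  · have h1 : (act (W n) v x.1).1 = v ++ x.1.1 := lp_of_infix h
    rw [h1, if_pos h, List.append_assoc]
  · have h1 : ¬ (u ++ v ++ x.1.1) <:+: W n := fun h2 => h
      (List.IsInfix.trans (by rw [List.append_assoc]; exact (List.suffix_append _ _).isInfix) h2)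
    rw [if_neg h, if_neg h1, ite_self]

lemma actL_nu {u : List A} (hu : u ≠ []) (hn : n % 2 = 0) (x : IL n) :
    actL u (nu x) = actL u x := by
  by_cases h : IsP n x.1.1
  · have h' : IsP n (nu x).1.1 := (isP_norm hn _ _).mpr h
    unfold actL
    refine Prod.ext ?_ ?_
    · apply Subtype.ext
      change lp (W n) (u ++ (nu x).1.1) = lp (W n) (u ++ x.1.1)
      rw [lp_append_of_isP hu h', lp_append_of_isP hu h]
    · simp only
      rw [if_neg (not_infix_append hu h'), if_neg (not_infix_append hu h)]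
  · unfold nu
    rw [norm_of_not h]

open Classical in
/-- the flag after an application of `q v` -/
noncomputable def gq (v : List A) (x : IL n) : Option (Fin 3) :=
  match x.2 with
  | none => some 0
  | some c => if IsP n (v ++ x.1.1) then some c else some 0

lemma gq_none (v : List A) (x : IL n) (h : x.2 = none) : gq v x = some 0 := by
  unfold gq
  rw [h]

lemma gq_pos {v : List A} {x : IL n} {c : Fin 3} (hc : x.2 = some c) (h : IsP n (v ++ x.1.1)) :
    gq v x = some c := by
  unfold gq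
  rw [hc]
  simp only
  rw [if_pos h]

lemma gq_neg {v : List A} {x : IL n} (h : ¬ IsP n (v ++ x.1.1)) : gq v x = some 0 := by
  unfold gq
  split
  · rfl
  · rw [if_neg h]

lemma gq_nu (hn : n % 2 = 0) (v : List A) (x : IL n) : gq v (nu x) = gq v x := by
  by_cases h : IsP n x.1.1
  · have h' : IsP n (nu x).1.1 := (isP_norm hn _ _).mpr h
    rcases hz : x.2 with _ | c
    · rw [gq_none v x hz, gq_none v (nu x) hz]
    · by_cases hv : v = []
      · subst hv
        rw [gq_pos hz (by simpa using h), gq_pos (x := nu x) hz (by simpa using h')]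
      · rw [gq_neg (x := x) (fun h1 => not_infix_append hv h h1.2.isInfix),
          gq_neg (x := nu x) (fun h1 => not_infix_append hv h' h1.2.isInfix)]
  · unfold nu
    rw [norm_of_not h]

lemma gq_actL (u : List A) (x : IL n) : gq [] (actL u x) = gq u x := by
  by_cases h : (u ++ x.1.1) <:+: W n
  · have h1 : (actL u x).1.1 = u ++ x.1.1 := lp_of_infix h
    have h2 : (actL u x).2 = x.2 := if_pos h
    rcases hz : x.2 with _ | c
    · rw [gq_none u x hz, gq_none [] _ (h2.trans hz)]
    · by_cases hp : IsP n (u ++ x.1.1)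
      · rw [gq_pos hz hp, gq_pos (h2.trans hz) (by rw [List.nil_append, h1]; exact hp)]
      · rw [gq_neg hp, gq_neg (by rw [List.nil_append, h1]; exact hp)]
  · have h2 : (actL u x).2 = none := if_neg h
    rw [gq_none [] _ h2, gq_neg (fun h1 => h h1.2.isInfix)]

lemma gq_ne_none (v : List A) (x : IL n) : gq v x ≠ none := by
  by_cases hp : IsP n (v ++ x.1.1)
  · rcases hz : x.2 with _ | c
    · rw [gq_none v x hz]; simp
    · rw [gq_pos hz hp]; simp
  · rw [gq_neg hp]; simp

/-- pairs of a left map and a right map -/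
@[ext] structure Bi (n : ℕ) where
  /-- the left map -/
  l : IL n → IL n
  /-- the right map -/
  r : IR n → IR n

instance : Semigroup (Bi n) where
  mul a b := ⟨a.l ∘ b.l, b.r ∘ a.r⟩
  mul_assoc _ _ _ := rfl

lemma mul_l (a b : Bi n) (x : IL n) : (a * b).l x = a.l (b.l x) := rfl
lemma mul_r (a b : Bi n) (y : IR n) : (a * b).r y = b.r (a.r y) := rfl

instance : Finite (Bi n) := by
  refine Finite.of_injective (β := (IL n → IL n) × (IR n → IR n)) (fun b => (b.l, b.r)) ?_
  intro a b h
  simp only [Prod.mk.injEq] at h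
  exact Bi.ext h.1 h.2

/-- the element given by a word -/
noncomputable def Nn (n : ℕ) (u : List A) : Bi n :=
  ⟨fun x => nu (actL u x), fun y => act (W n).reverse u.reverse y⟩

/-- a right state given by a word -/
noncomputable def rs (n : ℕ) (v : List A) : IR n := ⟨lp (W n).reverse v.reverse, lp_infix _ _⟩

/-- the element `u q v` -/
noncomputable def Mq (n : ℕ) (u : Fac (W n)) (v : List A) : Bi n :=
  ⟨fun x => nu (u, gq v x), fun _ => rs n v⟩

/-- the constants -/
def Kk (n : ℕ) (i : IL n) (j : IR n) : Bi n := ⟨fun _ => i, fun _ => j⟩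


/-- the empty word as a factor -/
def e0 (n : ℕ) : Fac (W n) := ⟨[], List.nil_infix⟩

lemma isP_nil : ¬ IsP n ([] : List A) := fun h => h.1 rfl

lemma nu_none (y : Fac (W n)) : nu (y, none) = (y, none) := rfl

lemma nu_zero (y : Fac (W n)) : nu (y, some 0) = (y, some 0) := by
  unfold nu
  simp only [norm_zero]

lemma nu_e0 (z : Option (Fin 3)) : nu (e0 n, z) = (e0 n, z) := by
  unfold nu
  simp only
  rw [norm_of_not (fun h => isP_nil h)]

lemma rs_val {v : List A} (h : v <:+: W n) : (rs n v).1 = v.reverse :=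
  lp_of_infix (List.reverse_infix.mpr h)

lemma rs_inj {v v' : List A} (h : v <:+: W n) (h' : v' <:+: W n) (he : rs n v = rs n v') :
    v = v' := by
  have h1 := congrArg Subtype.val he
  rw [rs_val h, rs_val h'] at h1
  exact List.reverse_injective h1

lemma Nn_mul_Nn (hn : n % 2 = 0) {u : List A} (hu : u ≠ []) (v : List A) :
    Nn n u * Nn n v = Nn n (u ++ v) := by
  apply Bi.ext
  · funext x
    rw [mul_l]
    simp only [Nn]
    rw [actL_nu hu hn, actL_actL]
  · funext y
    rw [mul_r]
    simp only [Nn]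
    rw [act_act, List.reverse_append]

lemma Nn_of_not {w : List A} (h : ¬ w <:+: W n) :
    Nn n w = Kk n (⟨lp (W n) w, lp_infix _ _⟩, none) (rs n w) := by
  apply Bi.ext
  · funext x
    simp only [Nn, Kk]
    have h1 : ¬ (w ++ x.1.1) <:+: W n := fun h2 => h ((List.prefix_append _ _).isInfix.trans h2)
    have h2 : actL w x = (⟨lp (W n) w, lp_infix _ _⟩, none) := by
      unfold actL
      refine Prod.ext ?_ (if_neg h1)
      apply Subtype.ext
      exact lp_of_prefix h (List.prefix_append _ _)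
    rw [h2, nu_none]
  · funext y
    simp only [Nn, Kk, rs, act]
    apply Subtype.ext
    simp only
    exact lp_of_prefix (fun h2 => h (List.reverse_infix.mp h2)) (List.prefix_append _ _)

lemma Nn_mul_Mq_pos (hn : n % 2 = 0) {w : List A} (hw : w ≠ []) {u : Fac (W n)} (v : List A)
    (h : (w ++ u.1) <:+: W n) : Nn n w * Mq n u v = Mq n ⟨w ++ u.1, h⟩ v := by
  apply Bi.ext
  · funext x
    rw [mul_l]
    simp only [Nn, Mq]
    rw [actL_nu hw hn]
    congr 1
    refine Prod.ext (Subtype.ext ?_) (if_pos h)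
    exact lp_of_infix h
  · rfl

lemma Nn_mul_Mq_neg (hn : n % 2 = 0) {w : List A} (hw : w ≠ []) {u : Fac (W n)} (v : List A)
    (h : ¬ (w ++ u.1) <:+: W n) :
    Nn n w * Mq n u v = Kk n (⟨lp (W n) (w ++ u.1), lp_infix _ _⟩, none) (rs n v) := by
  apply Bi.ext
  · funext x
    rw [mul_l]
    simp only [Nn, Mq, Kk]
    rw [actL_nu hw hn]
    have h2 : actL w (u, gq v x) = (⟨lp (W n) (w ++ u.1), lp_infix _ _⟩, none) :=
      Prod.ext rfl (if_neg h)
    rw [h2, nu_none]
  · rfl

lemma q_mul_Nn (hn : n % 2 = 0) (u : List A) : Mq n (e0 n) [] * Nn n u = Mq n (e0 n) u := by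
  apply Bi.ext
  · funext x
    rw [mul_l]
    simp only [Nn, Mq]
    rw [gq_nu hn, gq_actL]
  · funext y
    rw [mul_r]
    simp only [Nn, Mq, act, rs]
    apply Subtype.ext
    simp only
    rw [lp_append]
    simp

lemma Mq_of_not {v : List A} (u : Fac (W n)) (h : ¬ ∃ y, IsP n (v ++ y)) :
    Mq n u v = Kk n (u, some 0) (rs n v) := by
  apply Bi.ext
  · funext x
    simp only [Mq, Kk]
    rw [gq_neg (fun h1 => h ⟨_, h1⟩), nu_zero]
  · rfl

lemma q_mul_Mq_pos (hn : n % 2 = 0) {u : Fac (W n)} (v : List A) (h : IsP n u.1) :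
    Mq n (e0 n) [] * Mq n u v = Mq n (e0 n) v := by
  apply Bi.ext
  · funext x
    rw [mul_l]
    simp only [Mq]
    rw [gq_nu hn]
    rcases hc : gq v x with _ | c
    · exact absurd hc (gq_ne_none _ _)
    · rw [gq_pos rfl (by simpa using h)]
  · rfl

lemma q_mul_Mq_neg (hn : n % 2 = 0) {u : Fac (W n)} (v : List A) (h : ¬ IsP n u.1) :
    Mq n (e0 n) [] * Mq n u v = Kk n (e0 n, some 0) (rs n v) := by
  apply Bi.ext
  · funext x
    rw [mul_l]
    simp only [Mq, Kk]
    rw [gq_nu hn, gq_neg (by simpa using h), nu_zero]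
  · rfl

lemma Kk_mul (i : IL n) (j : IR n) (b : Bi n) : Kk n i j * b = Kk n i (b.r j) := rfl

lemma mul_Kk (i : IL n) (j : IR n) (b : Bi n) : b * Kk n i j = Kk n (b.l i) j := rfl

lemma Kk_inj {i i' : IL n} {j j' : IR n} (h : Kk n i j = Kk n i' j') : i = i' ∧ j = j' := by
  have h1 := congrFun (congrArg Bi.l h) i
  have h2 := congrFun (congrArg Bi.r h) j
  exact ⟨h1, h2⟩

/-- elements given by words -/
def IsN (x : Bi n) : Prop := ∃ u, u ≠ [] ∧ u <:+: W n ∧ x = Nn n u

/-- elements `u q v` -/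
def IsQ (x : Bi n) : Prop := ∃ (u : Fac (W n)) (v : List A), (∃ y, IsP n (v ++ y)) ∧ x = Mq n u v

/-- the constants -/
def IsK (x : Bi n) : Prop := ∃ i j, nu i = i ∧ x = Kk n i j

/-- all elements of the semigroup are of one of three kinds -/
def Good (x : Bi n) : Prop := IsN x ∨ IsQ x ∨ IsK x

lemma infix_of_isP {v y : List A} (h : IsP n (v ++ y)) : v <:+: W n :=
  (List.prefix_append _ _).isInfix.trans h.2.isInfix

lemma good_mul_letter (hn : n % 2 = 0) (a : A) {x : Bi n} (hx : Good x) :
    Good (Nn n [a] * x) := by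
  rcases hx with ⟨u, hu, hu', rfl⟩ | ⟨u, v, hv, rfl⟩ | ⟨i, j, hi, rfl⟩
  · rw [Nn_mul_Nn hn (by simp)]
    by_cases h : ([a] ++ u) <:+: W n
    · exact Or.inl ⟨_, by simp, h, rfl⟩
    · exact Or.inr (Or.inr ⟨_, _, nu_none _, Nn_of_not h⟩)
  · by_cases h : ([a] ++ u.1) <:+: W n
    · exact Or.inr (Or.inl ⟨_, v, hv, Nn_mul_Mq_pos hn (by simp) v h⟩)
    · exact Or.inr (Or.inr ⟨_, _, nu_none _, Nn_mul_Mq_neg hn (by simp) v h⟩)
  · rw [mul_Kk]
    exact Or.inr (Or.inr ⟨_, _, nu_nu hn _, rfl⟩)

lemma good_mul_q (hn : n % 2 = 0) {x : Bi n} (hx : Good x) : Good (Mq n (e0 n) [] * x) := by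
  rcases hx with ⟨u, hu, hu', rfl⟩ | ⟨u, v, hv, rfl⟩ | ⟨i, j, hi, rfl⟩
  · rw [q_mul_Nn hn]
    by_cases h : ∃ y, IsP n (u ++ y)
    · exact Or.inr (Or.inl ⟨_, _, h, rfl⟩)
    · exact Or.inr (Or.inr ⟨_, _, nu_zero _, Mq_of_not _ h⟩)
  · by_cases h : IsP n u.1
    · exact Or.inr (Or.inl ⟨_, v, hv, q_mul_Mq_pos hn v h⟩)
    · exact Or.inr (Or.inr ⟨_, _, nu_zero _, q_mul_Mq_neg hn v h⟩)
  · rw [mul_Kk]
    exact Or.inr (Or.inr ⟨_, _, nu_nu hn _, rfl⟩)

lemma good_mul_K {i : IL n} (j : IR n) (hi : nu i = i) (x : Bi n) : Good (Kk n i j * x) := by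
  rw [Kk_mul]
  exact Or.inr (Or.inr ⟨_, _, hi, rfl⟩)

open Classical in
/-- the generators -/
noncomputable def gens (n : ℕ) : Finset (Bi n) :=
  (Finset.univ.image fun a : A => Nn n [a]) ∪
    {Mq n (e0 n) [], Kk n (e0 n, some 1) (rs n []), Kk n (e0 n, some 2) (rs n [])}

lemma card_gens (n : ℕ) : (gens n).card ≤ 12 := by
  classical
  unfold gens
  refine (Finset.card_union_le _ _).trans ?_
  have h1 : (Finset.univ.image fun a : A => Nn n [a]).card ≤ 9 :=
    Finset.card_image_le.trans (by decide)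
  have h2 := Finset.card_le_three (a := Mq n (e0 n) []) (b := Kk n (e0 n, some 1) (rs n []))
    (c := Kk n (e0 n, some 2) (rs n []))
  omega

/-- the semigroup -/
noncomputable def S (n : ℕ) : Subsemigroup (Bi n) := Subsemigroup.closure (gens n : Set (Bi n))

lemma mem_gens {x : Bi n} : x ∈ gens n ↔ (∃ a, Nn n [a] = x) ∨ x = Mq n (e0 n) [] ∨
    x = Kk n (e0 n, some 1) (rs n []) ∨ x = Kk n (e0 n, some 2) (rs n []) := by
  classical
  unfold gens
  simp only [Finset.mem_union, Finset.mem_image, Finset.mem_univ, true_and, Finset.mem_insert,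
    Finset.mem_singleton]

lemma good_gens (hn : n % 2 = 0) (hn' : 2 ≤ n) {x : Bi n} (hx : x ∈ gens n) : Good x := by
  rcases mem_gens.mp hx with ⟨a, rfl⟩ | rfl | rfl | rfl
  · by_cases h : [a] <:+: W n
    · exact Or.inl ⟨_, by simp, h, rfl⟩
    · exact Or.inr (Or.inr ⟨_, _, nu_none _, Nn_of_not h⟩)
  · exact Or.inr (Or.inl ⟨_, _, ⟨(W n).take 1, isP_take le_rfl (by omega)⟩, rfl⟩)
  · exact Or.inr (Or.inr ⟨_, _, nu_e0 _, rfl⟩)
  · exact Or.inr (Or.inr ⟨_, _, nu_e0 _, rfl⟩)

lemma good_of_mem (hn : n % 2 = 0) (hn' : 2 ≤ n) {x : Bi n} (hx : x ∈ S n) : Good x := by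
  have key : ∀ x ∈ S n, ∀ y, Good y → Good (x * y) := by
    intro x hx
    induction hx using Subsemigroup.closure_induction with
    | mem x hx =>
      intro y hy
      rcases mem_gens.mp hx with ⟨a, rfl⟩ | rfl | rfl | rfl
      · exact good_mul_letter hn a hy
      · exact good_mul_q hn hy
      · exact good_mul_K _ (nu_e0 _) y
      · exact good_mul_K _ (nu_e0 _) y
    | mul a b _ _ ha hb =>
      intro y hy
      rw [mul_assoc]
      exact ha _ (hb _ hy)
  induction hx using Subsemigroup.closure_induction with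
  | mem x hx => exact good_gens hn hn' hx
  | mul a b ha _ _ hb => exact key a ha b hb


/-! ### commuting pairs -/

lemma words_eq {V u u' : List A} (hV : ∀ x : List A, x ≠ [] → ¬ (x ++ x) <:+: V)
    (hu : u ≠ []) (hu' : u' <:+: V) (hl : u.length ≤ u'.length)
    (h1 : u <+: lp V (u ++ u')) (h2 : u' <+: lp V (u ++ u')) :
    u <+: u' ∧ u'.length < 2 * u.length := by
  have h3 : u <+: u' := List.prefix_of_prefix_length_le h1 h2 hl
  refine ⟨h3, ?_⟩
  by_contra h4
  push Not at h4
  obtain ⟨x, rfl⟩ := h3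
  apply hV u hu
  have h5 := lp_prefix V (u ++ (u ++ x))
  rw [← List.append_assoc] at h5
  have h6 := h2.length_le
  have h7 : u ++ u <+: lp V (u ++ (u ++ x)) :=
    List.prefix_of_prefix_length_le (List.prefix_append _ _) (by rwa [List.append_assoc] at h5 ⊢)
      (by simp only [List.length_append] at *; omega)
  exact h7.isInfix.trans (lp_infix _ _)

lemma words_comm_aux {V u u' : List A} (hV : ∀ x : List A, x ≠ [] → ¬ (x ++ x) <:+: V)
    (hu : u ≠ []) (huV : u <:+: V) (hu' : u' <:+: V) (hl : u.length ≤ u'.length)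
    (h1 : lp V (u ++ u') = lp V (u' ++ u))
    (h2 : lp V.reverse (u'.reverse ++ u.reverse) = lp V.reverse (u.reverse ++ u'.reverse)) :
    u = u' := by
  have hVr : ∀ x : List A, x ≠ [] → ¬ (x ++ x) <:+: V.reverse := by
    intro x hx h
    apply hV x.reverse (by simpa using hx)
    rw [← List.reverse_infix, List.reverse_append, List.reverse_reverse]
    exact h
  have a1 : u <+: lp V (u ++ u') := lp_max (List.prefix_append _ _) huV
  have a2 : u' <+: lp V (u ++ u') := h1 ▸ lp_max (List.prefix_append _ _) hu'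
  obtain ⟨⟨x, hx⟩, hlen⟩ := words_eq hV hu hu' hl a1 a2
  have b1 : u.reverse <+: lp V.reverse (u.reverse ++ u'.reverse) :=
    lp_max (List.prefix_append _ _) (List.reverse_infix.mpr huV)
  have b2 : u'.reverse <+: lp V.reverse (u.reverse ++ u'.reverse) :=
    h2 ▸ lp_max (List.prefix_append _ _) (List.reverse_infix.mpr hu')
  obtain ⟨hs, -⟩ := words_eq hVr (by simpa using hu) (List.reverse_infix.mpr hu')
    (by simpa using hl) b1 b2
  rw [List.reverse_prefix] at hs
  obtain ⟨x', hx'⟩ := hs
  have hxl : x'.length = x.length := by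
    have e1 := congrArg List.length hx
    have e2 := congrArg List.length hx'
    simp only [List.length_append] at e1 e2
    omega
  have hxu : x'.length ≤ u.length := by
    have e1 := congrArg List.length hx
    simp only [List.length_append] at e1
    omega
  have c1 : x' <+: u := by
    have d1 : x' <+: u ++ x := by
      rw [hx, ← hx']
      exact List.prefix_append _ _
    exact List.prefix_of_prefix_length_le d1 (List.prefix_append _ _) hxu
  obtain ⟨y, hy⟩ := c1
  by_cases hx0 : x' = []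
  · rw [hx0, List.nil_append] at hx'
    exact hx'
  · exfalso
    apply hV x' hx0
    refine List.IsInfix.trans ?_ hu'
    rw [← hx', ← hy, ← List.append_assoc]
    exact (List.prefix_append _ _).isInfix

lemma words_comm {V u u' : List A} (hV : ∀ x : List A, x ≠ [] → ¬ (x ++ x) <:+: V)
    (hu : u ≠ []) (hu0 : u' ≠ []) (huV : u <:+: V) (hu' : u' <:+: V)
    (h1 : lp V (u ++ u') = lp V (u' ++ u))
    (h2 : lp V.reverse (u'.reverse ++ u.reverse) = lp V.reverse (u.reverse ++ u'.reverse)) :
    u = u' := by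
  rcases le_total u.length u'.length with hl | hl
  · exact words_comm_aux hV hu huV hu' hl h1 h2
  · exact (words_comm_aux hV hu0 hu' huV hl h1.symm h2.symm).symm

lemma Nn_l_e0 (u : List A) : ((Nn n u).l (e0 n, some 0)).1.1 = lp (W n) u := by
  have h : (actL u (e0 n, some 0)).1.1 = lp (W n) u := by
    change lp (W n) (u ++ []) = _
    rw [List.append_nil]
  change (nu (actL u (e0 n, some 0))).1.1 = _
  by_cases hu : (u ++ (e0 n).1) <:+: W n
  · have h2 : actL u (e0 n, some 0) = ((actL u (e0 n, some 0)).1, some 0) :=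
      Prod.ext rfl (if_pos hu)
    rw [h2, nu_zero]
    exact h
  · have h2 : actL u (e0 n, some 0) = ((actL u (e0 n, some 0)).1, none) :=
      Prod.ext rfl (if_neg hu)
    rw [h2, nu_none]
    exact h

lemma Nn_r_nil (u : List A) : ((Nn n u).r (rs n [])).1 = lp (W n).reverse u.reverse := by
  change lp (W n).reverse (u.reverse ++ lp (W n).reverse [].reverse) = _
  rw [lp_append]
  simp

lemma comm_NN (hn : n % 2 = 0) {x y : Bi n} (hx : IsN x) (hy : IsN y) (h : x * y = y * x) :
    x = y := by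
  obtain ⟨u, hu, hu', rfl⟩ := hx
  obtain ⟨w, hw, hw', rfl⟩ := hy
  rw [Nn_mul_Nn hn hu, Nn_mul_Nn hn hw] at h
  have h1 := congrArg (fun b : Bi n => (b.l (e0 n, some 0)).1.1) h
  have h2 := congrArg (fun b : Bi n => (b.r (rs n [])).1) h
  simp only [Nn_l_e0, Nn_r_nil, List.reverse_append] at h1 h2
  rw [words_comm (fun x hx => not_infix_square hx) hu hw hu' hw' h1 h2]

lemma gq_of_zero (v : List A) {x : IL n} (h : x.2 = some 0 ∨ x.2 = none) : gq v x = some 0 := by
  rcases h with h | h
  · by_cases hp : IsP n (v ++ x.1.1)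
    · rw [gq_pos h hp]
    · rw [gq_neg hp]
  · exact gq_none v x h

lemma Mq_l_of_zero (u : Fac (W n)) (v : List A) {x : IL n} (h : x.2 = some 0 ∨ x.2 = none) :
    (Mq n u v).l x = (u, some 0) := by
  change nu (u, gq v x) = _
  rw [gq_of_zero v h, nu_zero]

lemma comm_NQ {x y : Bi n} (hx : IsN x) (hy : IsQ y) : x * y ≠ y * x := by
  obtain ⟨w, hw, hw', rfl⟩ := hx
  obtain ⟨u, v, hv, rfl⟩ := hy
  intro h
  have h1 := congrArg (fun b : Bi n => b.l (e0 n, some 0)) h
  simp only [mul_l] at h1
  rw [Mq_l_of_zero u v (Or.inl rfl), Mq_l_of_zero] at h1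
  · change nu (actL w (u, some 0)) = (u, some 0) at h1
    by_cases hc : (w ++ u.1) <:+: W n
    · have h2 : actL w (u, some (0 : Fin 3)) = (⟨w ++ u.1, hc⟩, some 0) :=
        Prod.ext (Subtype.ext (lp_of_infix hc)) (if_pos hc)
      rw [h2, nu_zero] at h1
      have h3 := congrArg (fun x : IL n => x.1.1.length) h1
      simp only [List.length_append] at h3
      exact hw (List.length_eq_zero_iff.mp (by omega))
    · have h2 : actL w (u, some (0 : Fin 3)) = ((actL w (u, some (0 : Fin 3))).1, none) :=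
        Prod.ext rfl (if_neg hc)
      rw [h2, nu_none] at h1
      simp at h1
  · change (actL w (e0 n, some 0)).2 = some 0 ∨ (actL w (e0 n, some 0)).2 = none
    by_cases hc : (w ++ (e0 n).1) <:+: W n
    · exact Or.inl (if_pos hc)
    · exact Or.inr (if_neg hc)

lemma comm_QQ {x y : Bi n} (hx : IsQ x) (hy : IsQ y) (h : x * y = y * x) : x = y := by
  obtain ⟨u, v, ⟨t, hv⟩, rfl⟩ := hx
  obtain ⟨u', v', ⟨t', hv'⟩, rfl⟩ := hy
  have h1 := congrArg (fun b : Bi n => b.l (e0 n, some 0)) h
  simp only [mul_l] at h1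
  have e1 : (Mq n u v).l ((Mq n u' v').l (e0 n, some 0)) = (u, some 0) := by
    rw [Mq_l_of_zero u' v' (Or.inl rfl), Mq_l_of_zero u v (Or.inl rfl)]
  have e2 : (Mq n u' v').l ((Mq n u v).l (e0 n, some 0)) = (u', some 0) := by
    rw [Mq_l_of_zero u v (Or.inl rfl), Mq_l_of_zero u' v' (Or.inl rfl)]
  rw [e1, e2] at h1
  have h2 : rs n v' = rs n v := congrArg (fun b : Bi n => b.r (rs n [])) h
  have h3 := rs_inj (infix_of_isP hv') (infix_of_isP hv) h2
  rw [h3]
  simp only [Prod.mk.injEq, and_true] at h1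
  rw [h1]

lemma comm_KK {x y : Bi n} (hx : IsK x) (hy : IsK y) (h : x * y = y * x) : x = y := by
  obtain ⟨i, j, hi, rfl⟩ := hx
  obtain ⟨i', j', hi', rfl⟩ := hy
  obtain ⟨h1, h2⟩ := Kk_inj (h : Kk n i j' = Kk n i' j)
  rw [h1, h2]

lemma comm_NK (hn : n % 2 = 0) {u : List A} (hu : u ≠ []) {i : IL n} {j : IR n}
    (h : Nn n u * Kk n i j = Kk n i j * Nn n u) :
    Kk n i j = Nn n (u ++ u) := by
  have h0 := Nn_of_not (n := n) (not_infix_square (n := n) hu)
  have h1 : Nn n (u ++ u) * Kk n i j = Kk n i j * Nn n (u ++ u) := by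
    rw [← Nn_mul_Nn hn hu, mul_assoc, h, ← mul_assoc, h, mul_assoc]
  rw [h0] at h1 ⊢
  obtain ⟨h2, h3⟩ := Kk_inj (h1 : Kk n _ j = Kk n i _)
  rw [h2]
  exact congrArg _ h3

lemma comm_QK {u : Fac (W n)} {v : List A} {i : IL n} {j : IR n}
    (h : Mq n u v * Kk n i j = Kk n i j * Mq n u v) : nu (u, gq v i) = i ∧ j = rs n v :=
  Kk_inj (h : Kk n (nu (u, gq v i)) j = Kk n i (rs n v))

end construction

section graph

variable {n : ℕ}

/-- the prefix of length `k` -/
def pk (n k : ℕ) : Fac (W n) := ⟨(W n).take k, (List.take_prefix _ _).isInfix⟩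

/-- the idempotents on the cycle -/
noncomputable def ek (n k : ℕ) : Bi n := Mq n (pk n k) []

/-- the constants on the cycle -/
noncomputable def kk (n k : ℕ) (c : Fin 3) : Bi n := Kk n (nu (pk n k, some c)) (rs n [])

lemma nu_pk {k : ℕ} (h1 : 1 ≤ k) (h2 : k ≤ n) (c : Fin 3) :
    nu (pk n k, some c) = (pk n (rho n c k), some c) := by
  refine Prod.ext (Subtype.ext ?_) rfl
  change (norm n (some c) (pk n k)).1 = _
  rw [norm_of_isP (isP_take h1 h2)]
  change (W n).take (rho n c ((W n).take k).length) = (W n).take (rho n c k)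
  rw [take_length h2]

lemma pk_inj {k k' : ℕ} (h : k ≤ n) (h' : k' ≤ n) (he : pk n k = pk n k') : k = k' := by
  have h1 := congrArg (fun x : Fac (W n) => x.1.length) he
  simp only [pk] at h1
  rwa [take_length h, take_length h'] at h1

/-- the vertices of the commuting graph -/
abbrev Vx (n : ℕ) : Type := {x : S n // ¬ ∀ y : S n, x * y = y * x}

/-- the commuting graph -/
noncomputable abbrev Gn (n : ℕ) : SimpleGraph (Vx n) := commutingGraph (S n)

lemma ne_of_adj {x y : Vx n} (h : (Gn n).Adj x y) : x.1.1 ≠ y.1.1 := fun he =>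
  h.1 (Subtype.ext (Subtype.ext he))

lemma comm_of_adj {x y : Vx n} (h : (Gn n).Adj x y) : x.1.1 * y.1.1 = y.1.1 * x.1.1 :=
  congrArg Subtype.val h.2

lemma vx_ext {x y : Vx n} (h : x.1.1 = y.1.1) : x = y := Subtype.ext (Subtype.ext h)

/-- a set of vertices each of which has two neighbours in the set -/
def TwoNbr (H : Set (Vx n)) : Prop :=
  ∀ x ∈ H, ∃ a ∈ H, ∃ b ∈ H, a ≠ b ∧ (Gn n).Adj x a ∧ (Gn n).Adj x b

lemma isK_of_adj_N (hn : n % 2 = 0) (hn' : 2 ≤ n) {x a : Vx n} (hx : IsN x.1.1)
    (h : (Gn n).Adj x a) : IsK a.1.1 := by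
  rcases good_of_mem hn hn' a.1.2 with h1 | h1 | h1
  · exact absurd (comm_NN hn hx h1 (comm_of_adj h)) (ne_of_adj h)
  · exact absurd (comm_of_adj h) (comm_NQ hx h1)
  · exact h1

lemma not_isN (hn : n % 2 = 0) (hn' : 2 ≤ n) {H : Set (Vx n)} (hH : TwoNbr H) {x : Vx n}
    (hx : x ∈ H) : ¬ IsN x.1.1 := by
  intro hxN
  obtain ⟨a, ha, b, hb, hab, h1, h2⟩ := hH x hx
  apply hab
  obtain ⟨i, j, hi, hak⟩ := isK_of_adj_N hn hn' hxN h1
  obtain ⟨i', j', hi', hbk⟩ := isK_of_adj_N hn hn' hxN h2
  obtain ⟨u, hu, hu', hxu⟩ := hxN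
  have c1 := comm_of_adj h1
  have c2 := comm_of_adj h2
  rw [hxu, hak] at c1
  rw [hxu, hbk] at c2
  apply vx_ext
  rw [hak, hbk, comm_NK hn hu c1, comm_NK hn hu c2]

lemma K_case (hn : n % 2 = 0) (hn' : 2 ≤ n) {H : Set (Vx n)} (hH : TwoNbr H) {x : Vx n}
    (hx : x ∈ H) (hxK : IsK x.1.1) :
    ∃ (c : Fin 3) (k k' : ℕ), c ≠ 0 ∧ k ≠ k' ∧ 1 ≤ k ∧ k ≤ n ∧ 1 ≤ k' ∧ k' ≤ n ∧
      rho n c k = rho n c k' ∧ x.1.1 = kk n k c ∧ (∃ a ∈ H, a.1.1 = ek n k) ∧
      (∃ a ∈ H, a.1.1 = ek n k') := by
  obtain ⟨a, ha, b, hb, hab, h1, h2⟩ := hH x hx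
  have hQ : ∀ a ∈ H, (Gn n).Adj x a → IsQ a.1.1 := by
    intro a ha h1
    rcases good_of_mem hn hn' a.1.2 with h3 | h3 | h3
    · exact absurd h3 (not_isN hn hn' hH ha)
    · exact h3
    · exact absurd (comm_KK hxK h3 (comm_of_adj h1)) (ne_of_adj h1)
  obtain ⟨u, v, ⟨y, hv⟩, hau⟩ := hQ a ha h1
  obtain ⟨u', v', ⟨y', hv'⟩, hbu⟩ := hQ b hb h2
  obtain ⟨i, j, hi, hxi⟩ := hxK
  have c1 := (comm_of_adj h1).symm
  have c2 := (comm_of_adj h2).symm
  rw [hau, hxi] at c1
  rw [hbu, hxi] at c2
  obtain ⟨d1, e1⟩ := comm_QK c1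
  obtain ⟨d2, e2⟩ := comm_QK c2
  have hvv : v = v' := rs_inj (infix_of_isP hv) (infix_of_isP hv') (e1.symm.trans e2)
  subst hvv
  have huu : u ≠ u' := by
    intro h
    apply hab
    apply vx_ext
    rw [hau, hbu, h]
  rcases hg : gq v i with _ | c
  · exact absurd hg (gq_ne_none _ _)
  rw [hg] at d1 d2
  have hi2 : i.2 = some c := (congrArg Prod.snd d1).symm
  have f1 : norm n (some c) u = i.1 := congrArg Prod.fst d1
  have f2 : norm n (some c) u' = i.1 := congrArg Prod.fst d2
  have hP : IsP n i.1.1 := by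
    by_contra hP
    have g1 : ¬ IsP n u.1 := fun h => hP (f1 ▸ (isP_norm hn _ _).mpr h)
    have g2 : ¬ IsP n u'.1 := fun h => hP (f2 ▸ (isP_norm hn _ _).mpr h)
    rw [norm_of_not g1] at f1
    rw [norm_of_not g2] at f2
    exact huu (f1.trans f2.symm)
  have g1 : IsP n u.1 := (isP_norm hn (some c) u).mp (f1 ▸ hP)
  have g2 : IsP n u'.1 := (isP_norm hn (some c) u').mp (f2 ▸ hP)
  have hu : u = pk n u.1.length := Subtype.ext g1.eq_take
  have hu' : u' = pk n u'.1.length := Subtype.ext g2.eq_take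
  have hk : u.1.length ≠ u'.1.length := by
    intro h
    apply huu
    rw [hu, hu', h]
  have hd : (pk n (rho n c u.1.length), some c) = (pk n (rho n c u'.1.length), some c) := by
    rw [← nu_pk g1.one_le g1.length_le, ← nu_pk g2.one_le g2.length_le, ← hu, ← hu', d1, d2]
  have hr : rho n c u.1.length = rho n c u'.1.length :=
    pk_inj (rho_bounds c hn g1.one_le g1.length_le).2 (rho_bounds c hn g2.one_le g2.length_le).2
      (congrArg Prod.fst hd)
  have hc : c ≠ 0 := by
    rintro rfl
    exact hk (by simpa [rho] using hr)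
  have hv0 : v = [] := by
    by_contra hv0
    have h3 : gq v i = some 0 := gq_neg (fun h => not_infix_append hv0 hP h.2.isInfix)
    rw [hg] at h3
    exact hc (Option.some.inj h3)
  subst hv0
  refine ⟨c, u.1.length, u'.1.length, hc, hk, g1.one_le, g1.length_le, g2.one_le, g2.length_le,
    hr, ?_, ⟨a, ha, ?_⟩, ⟨b, hb, ?_⟩⟩
  · rw [hxi, kk, ← hu, d1, e1]
  · rw [hau, ek, ← hu]
  · rw [hbu, ek, ← hu']

lemma Q_case (hn : n % 2 = 0) (hn' : 2 ≤ n) {H : Set (Vx n)} (hH : TwoNbr H) {x : Vx n}
    (hx : x ∈ H) (hxQ : IsQ x.1.1) :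
    ∃ k, 1 ≤ k ∧ k ≤ n ∧ x.1.1 = ek n k ∧ ∀ c : Fin 3, c ≠ 0 → ∃ y ∈ H, y.1.1 = kk n k c := by
  obtain ⟨a, ha, b, hb, hab, h1, h2⟩ := hH x hx
  have hK : ∀ a ∈ H, (Gn n).Adj x a → IsK a.1.1 := by
    intro a ha h1
    rcases good_of_mem hn hn' a.1.2 with h3 | h3 | h3
    · exact absurd h3 (not_isN hn hn' hH ha)
    · exact absurd (comm_QQ hxQ h3 (comm_of_adj h1)) (ne_of_adj h1)
    · exact h3
  obtain ⟨u, v, ⟨y, hv⟩, hxu⟩ := hxQ
  have key : ∀ a ∈ H, (Gn n).Adj x a → v = [] ∧ IsP n u.1 ∧ ∃ c : Fin 3, c ≠ 0 ∧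
      a.1.1 = Kk n (nu (u, some c)) (rs n []) := by
    intro a ha h1
    obtain ⟨c, k, k', hc, hkk, hk1, hk2, -, -, -, hak, -, -⟩ := K_case hn hn' hH ha (hK a ha h1)
    have c1 := comm_of_adj h1
    rw [hxu, hak] at c1
    obtain ⟨d1, e1⟩ := comm_QK c1
    have hv0 : [] = v := rs_inj List.nil_infix (infix_of_isP hv) e1
    rw [nu_pk hk1 hk2] at d1
    have hP : IsP n (pk n (rho n c k)).1 := by
      obtain ⟨r1, r2⟩ := rho_bounds c hn hk1 hk2
      exact isP_take r1 r2
    have f1 : norm n (gq v (pk n (rho n c k), some c)) u = pk n (rho n c k) :=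
      congrArg Prod.fst d1
    have f2 : gq v (pk n (rho n c k), some c) = some c := congrArg Prod.snd d1
    refine ⟨hv0.symm, (isP_norm hn _ u).mp (f1 ▸ hP), c, hc, ?_⟩
    rw [hak, kk, nu_pk hk1 hk2, ← d1, f2]
  obtain ⟨hv0, hP, c1, hc1, ha1⟩ := key a ha h1
  obtain ⟨-, -, c2, hc2, hb1⟩ := key b hb h2
  have hu : u = pk n u.1.length := Subtype.ext hP.eq_take
  refine ⟨u.1.length, hP.one_le, hP.length_le, ?_, ?_⟩
  · rw [hxu, hv0, ek, ← hu]
  · have hcc : c1 ≠ c2 := by
      rintro rfl
      exact hab (vx_ext (ha1.trans hb1.symm))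
    intro c hc
    have : c = c1 ∨ c = c2 := by omega
    rcases this with rfl | rfl
    · exact ⟨a, ha, by rw [ha1, kk, ← hu]⟩
    · exact ⟨b, hb, by rw [hb1, kk, ← hu]⟩

lemma rho_fiber {c : Fin 3} {k k1 k2 k' : ℕ} (hn : n % 2 = 0) (hk : 1 ≤ k) (hkn : k ≤ n)
    (hk1 : 1 ≤ k1) (hkn1 : k1 ≤ n) (hk2 : 1 ≤ k2) (hkn2 : k2 ≤ n) (hk' : 1 ≤ k') (hkn' : k' ≤ n)
    (hc : c ≠ 0) (h12 : k1 ≠ k2) (h0 : k ≠ k') (e1 : rho n c k1 = rho n c k)
    (e2 : rho n c k2 = rho n c k) (e3 : rho n c k' = rho n c k) : k' = k1 ∨ k' = k2 := by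
  unfold rho at e1 e2 e3
  rw [if_neg hc, if_neg hc] at e1 e2 e3
  split_ifs at e1 e2 e3 <;> omega

lemma ek_injective {k k' : ℕ} (h : k ≤ n) (h' : k' ≤ n) (he : ek n k = ek n k') : k = k' := by
  have h1 := congrArg (fun b : Bi n => b.l (e0 n, some 0)) he
  simp only [ek] at h1
  rw [Mq_l_of_zero _ _ (Or.inl rfl), Mq_l_of_zero _ _ (Or.inl rfl)] at h1
  exact pk_inj h h' (congrArg Prod.fst h1)

lemma step (hn : n % 2 = 0) (hn' : 2 ≤ n) {H : Set (Vx n)} (hH : TwoNbr H) {k k' : ℕ}
    (hk : 1 ≤ k) (hkn : k ≤ n) (hk' : 1 ≤ k') (hkn' : k' ≤ n) {c : Fin 3} (hc : c ≠ 0)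
    (h0 : k ≠ k') (e : rho n c k' = rho n c k) (hx : ∃ x ∈ H, x.1.1 = ek n k) :
    ∃ x ∈ H, x.1.1 = ek n k' := by
  obtain ⟨x, hx, hxe⟩ := hx
  obtain ⟨k0, a1, a2, a3, a4⟩ := Q_case hn hn' hH hx
    ⟨_, _, ⟨(W n).take 1, isP_take le_rfl (by omega)⟩, hxe⟩
  have hk0 : k0 = k := (ek_injective a2 hkn (a3.symm.trans hxe))
  subst hk0
  obtain ⟨y, hy, hye⟩ := a4 c hc
  obtain ⟨c', k1, k2, b1, b2, b3, b4, b5, b6, b7, b8, b9, b10⟩ := K_case hn hn' hH hy
    ⟨_, _, nu_nu hn _, hye⟩
  have h1 := (Kk_inj (hye.symm.trans b8 : Kk n _ _ = Kk n _ _)).1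
  rw [nu_pk hk hkn, nu_pk b3 b4] at h1
  have h2 : c = c' := Option.some.inj (congrArg Prod.snd h1)
  subst h2
  have h3 : rho n c k0 = rho n c k1 := pk_inj (rho_bounds c hn hk hkn).2
    (rho_bounds c hn b3 b4).2 (congrArg Prod.fst h1)
  rcases rho_fiber hn hk hkn b3 b4 b5 b6 hk' hkn' hc b2 h0 h3.symm (b7 ▸ h3.symm) e with rfl | rfl
  · exact b9
  · exact b10

lemma all_ek (hn : n % 2 = 0) (hn' : 2 ≤ n) {H : Set (Vx n)} (hH : TwoNbr H)
    (hne : H.Nonempty) {k : ℕ} (hk : 1 ≤ k) (hkn : k ≤ n) : ∃ x ∈ H, x.1.1 = ek n k := by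
  have h0 : ∃ k0, 1 ≤ k0 ∧ k0 ≤ n ∧ ∃ x ∈ H, x.1.1 = ek n k0 := by
    obtain ⟨x, hx⟩ := hne
    rcases good_of_mem hn hn' x.1.2 with h1 | h1 | h1
    · exact absurd h1 (not_isN hn hn' hH hx)
    · obtain ⟨k, h2, h3, h4, -⟩ := Q_case hn hn' hH hx h1
      exact ⟨k, h2, h3, x, hx, h4⟩
    · obtain ⟨c, k, k', -, -, h2, h3, -, -, -, -, h4, -⟩ := K_case hn hn' hH hx h1
      exact ⟨k, h2, h3, h4⟩
  have hstep : ∀ k, 1 ≤ k → k < n → (∃ x ∈ H, x.1.1 = ek n k) → ∃ x ∈ H, x.1.1 = ek n (k + 1) := by
    intro k h1 h2 h3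
    rcases Nat.mod_two_eq_zero_or_one k with h4 | h4
    · refine step hn hn' hH h1 h2.le (by omega) (by omega) (c := 2) (by decide) (by omega) ?_ h3
      rw [rho_two, rho_two, if_neg (by omega), if_neg (by omega)]
      omega
    · refine step hn hn' hH h1 h2.le (by omega) (by omega) (c := 1) (by decide) (by omega) ?_ h3
      rw [rho_one, rho_one]
      omega
  have hup : ∀ k d, 1 ≤ k → k + d ≤ n → (∃ x ∈ H, x.1.1 = ek n k) →
      ∃ x ∈ H, x.1.1 = ek n (k + d) := by
    intro k d
    induction d with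
    | zero => intro _ _ h; exact h
    | succ d ih => intro h1 h2 h3; exact hstep (k + d) (by omega) (by omega) (ih h1 (by omega) h3)
  obtain ⟨k0, h1, h2, h3⟩ := h0
  have hlast : ∃ x ∈ H, x.1.1 = ek n n := by
    have := hup k0 (n - k0) h1 (by omega) h3
    rwa [Nat.add_sub_cancel' h2] at this
  have hfirst : ∃ x ∈ H, x.1.1 = ek n 1 := by
    refine step hn hn' hH (by omega) le_rfl le_rfl (by omega) (c := 2) (by decide) (by omega) ?_
      hlast
    rw [rho_two, rho_two, if_pos rfl, if_neg (by omega)]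
    omega
  have := hup 1 (k - 1) le_rfl (by omega) hfirst
  rwa [Nat.add_sub_cancel' hk] at this


/-! ### the cycle -/

lemma Nn_mem (hn : n % 2 = 0) {u : List A} (hu : u ≠ []) : Nn n u ∈ S n := by
  induction u with
  | nil => exact absurd rfl hu
  | cons a u ih =>
    by_cases h : u = []
    · subst h
      exact Subsemigroup.subset_closure (mem_gens.mpr (Or.inl ⟨a, rfl⟩))
    · have h1 : Nn n (a :: u) = Nn n [a] * Nn n u := (Nn_mul_Nn hn (List.cons_ne_nil a []) u).symm
      rw [h1]
      exact mul_mem (Subsemigroup.subset_closure (mem_gens.mpr (Or.inl ⟨a, rfl⟩))) (ih h)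

lemma q_mem : Mq n (e0 n) [] ∈ S n :=
  Subsemigroup.subset_closure (mem_gens.mpr (Or.inr (Or.inl rfl)))

lemma kap_mem {c : Fin 3} (hc : c ≠ 0) : Kk n (e0 n, some c) (rs n []) ∈ S n := by
  apply Subsemigroup.subset_closure
  have : c = 1 ∨ c = 2 := by omega
  rcases this with rfl | rfl
  · exact mem_gens.mpr (Or.inr (Or.inr (Or.inl rfl)))
  · exact mem_gens.mpr (Or.inr (Or.inr (Or.inr rfl)))

lemma ek_mem (hn : n % 2 = 0) {k : ℕ} (hk : 1 ≤ k) (hkn : k ≤ n) : ek n k ∈ S n := by
  have h1 : ((W n).take k ++ (e0 n).1) <:+: W n := by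
    change ((W n).take k ++ []) <:+: W n
    rw [List.append_nil]
    exact (List.take_prefix _ _).isInfix
  have h2 : ek n k = Nn n ((W n).take k) * Mq n (e0 n) [] := by
    rw [Nn_mul_Mq_pos hn (isP_take hk hkn).1 [] h1, ek]
    congr 1
    apply Subtype.ext
    exact (List.append_nil _).symm
  rw [h2]
  exact mul_mem (Nn_mem hn (isP_take hk hkn).1) q_mem

lemma kk_mem (hn : n % 2 = 0) {k : ℕ} (hk : 1 ≤ k) (hkn : k ≤ n) {c : Fin 3} (hc : c ≠ 0) :
    kk n k c ∈ S n := by
  have h1 : ((W n).take k ++ (e0 n).1) <:+: W n := by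
    change ((W n).take k ++ []) <:+: W n
    rw [List.append_nil]
    exact (List.take_prefix _ _).isInfix
  have h2 : kk n k c = Nn n ((W n).take k) * Kk n (e0 n, some c) (rs n []) := by
    rw [mul_Kk, kk]
    congr 1
    change _ = nu (actL ((W n).take k) (e0 n, some c))
    congr 1
    refine Prod.ext (Subtype.ext ?_) (if_pos h1).symm
    change (W n).take k = lp (W n) ((W n).take k ++ (e0 n).1)
    rw [lp_of_infix h1]
    exact (List.append_nil _).symm
  rw [h2]
  exact mul_mem (Nn_mem hn (isP_take hk hkn).1) (kap_mem hc)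

lemma ek_noncentral (hn : n % 2 = 0) (hn' : 2 ≤ n) {k : ℕ} (hk : 1 ≤ k) (hkn : k ≤ n) :
    ¬ ∀ y : S n, (⟨ek n k, ek_mem hn hk hkn⟩ : S n) * y = y * ⟨ek n k, ek_mem hn hk hkn⟩ := by
  intro h
  have h1 := congrArg Subtype.val (h ⟨_, q_mem⟩)
  have hQ : ∃ y, IsP n ([] ++ y) := ⟨(W n).take 1, isP_take le_rfl (by omega)⟩
  have h2 : ek n k = Mq n (e0 n) [] := comm_QQ ⟨_, _, hQ, rfl⟩ ⟨_, _, hQ, rfl⟩ h1
  have h3 := congrArg (fun b : Bi n => b.l (e0 n, some 0)) h2
  simp only [ek] at h3
  rw [Mq_l_of_zero _ _ (Or.inl rfl), Mq_l_of_zero _ _ (Or.inl rfl)] at h3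
  have h4 := congrArg (fun x : IL n => x.1.1.length) h3
  change ((W n).take k).length = 0 at h4
  rw [take_length hkn] at h4
  omega

lemma K_noncentral {i : IL n} {j : IR n} (hi : nu i = i) (h : Kk n i j ∈ S n) :
    ¬ ∀ y : S n, (⟨Kk n i j, h⟩ : S n) * y = y * ⟨Kk n i j, h⟩ := by
  intro hc
  have h1 := congrArg Subtype.val (hc ⟨_, kap_mem (c := 1) (by decide)⟩)
  have h2 := congrArg Subtype.val (hc ⟨_, kap_mem (c := 2) (by decide)⟩)
  have h3 : Kk n i j = _ := comm_KK ⟨_, _, hi, rfl⟩ ⟨_, _, nu_e0 _, rfl⟩ h1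
  have h4 : Kk n i j = _ := comm_KK ⟨_, _, hi, rfl⟩ ⟨_, _, nu_e0 _, rfl⟩ h2
  have h5 := (Kk_inj (h3.symm.trans h4)).1
  simp at h5

/-- the vertices `e_k` -/
noncomputable def vk (hn : n % 2 = 0) (hn' : 2 ≤ n) {k : ℕ} (hk : 1 ≤ k) (hkn : k ≤ n) : Vx n :=
  ⟨⟨ek n k, ek_mem hn hk hkn⟩, ek_noncentral hn hn' hk hkn⟩

/-- the constants on the cycle -/
noncomputable def wk (hn : n % 2 = 0) {k : ℕ} (hk : 1 ≤ k) (hkn : k ≤ n) {c : Fin 3}
    (hc : c ≠ 0) : Vx n :=
  ⟨⟨kk n k c, kk_mem hn hk hkn hc⟩, K_noncentral (nu_nu hn _) (kk_mem hn hk hkn hc)⟩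

lemma ek_ne_kk {k k' : ℕ} {c : Fin 3} (hc : c ≠ 0) : ek n k ≠ kk n k' c := by
  intro h
  have h1 := congrArg (fun b : Bi n => (b.l (e0 n, some 0)).2) h
  simp only [ek] at h1
  rw [Mq_l_of_zero _ _ (Or.inl rfl)] at h1
  exact hc (Option.some.inj h1).symm

lemma adj_vk_wk (hn : n % 2 = 0) (hn' : 2 ≤ n) {k : ℕ} (hk : 1 ≤ k) (hkn : k ≤ n) {c : Fin 3}
    (hc : c ≠ 0) : (Gn n).Adj (vk hn hn' hk hkn) (wk hn hk hkn hc) := by
  refine ⟨fun h => ek_ne_kk (n := n) (k := k) (k' := k) hc
    (congrArg (fun x : Vx n => x.1.1) h), Subtype.ext ?_⟩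
  change ek n k * kk n k c = kk n k c * ek n k
  rw [kk, mul_Kk, Kk_mul]
  have h1 : (ek n k).l (nu (pk n k, some c)) = nu (pk n k, some c) := by
    change nu (pk n k, gq [] (nu (pk n k, some c))) = _
    rw [gq_nu hn, gq_pos rfl (by rw [List.nil_append]; exact isP_take hk hkn)]
  rw [h1]
  rfl

lemma kk_eq {k k' : ℕ} (hk : 1 ≤ k) (hkn : k ≤ n) (hk' : 1 ≤ k') (hkn' : k' ≤ n)
    {c : Fin 3} (h : rho n c k = rho n c k') : kk n k c = kk n k' c := by
  rw [kk, kk, nu_pk hk hkn, nu_pk hk' hkn', h]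

lemma not_acyclic (hn : n % 2 = 0) (hn' : 2 ≤ n) : ¬ (Gn n).IsAcyclic := by
  intro hac
  have h1n : 1 ≤ n := by omega
  have hb := SimpleGraph.isAcyclic_iff_forall_adj_isBridge.mp hac
    (adj_vk_wk hn hn' le_rfl h1n (c := 2) (by decide))
  rw [SimpleGraph.isBridge_iff] at hb
  apply hb
  have hreach : ∀ k, ∀ (hk : 1 ≤ k) (hkn : k ≤ n),
      ((Gn n).deleteEdges {s(vk hn hn' le_rfl h1n, wk hn le_rfl h1n (c := 2) (by decide))}).Reachable
        (vk hn hn' le_rfl h1n) (vk hn hn' hk hkn) := by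
    intro k hk
    induction k, hk using Nat.le_induction with
    | base => intro _; exact SimpleGraph.Reachable.refl _
    | succ k hk ih =>
      intro hkn
      have hc : ∃ c : Fin 3, c ≠ 0 ∧ rho n c k = rho n c (k + 1) ∧ (c = 2 → k ≠ 1) := by
        rcases Nat.mod_two_eq_zero_or_one k with h4 | h4
        · refine ⟨2, by decide, ?_, fun _ => by omega⟩
          rw [rho_two, rho_two, if_neg (by omega), if_neg (by omega)]
          omega
        · refine ⟨1, by decide, ?_, fun h => absurd h (by decide)⟩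
          rw [rho_one, rho_one]
          omega
      obtain ⟨c, hc, hr, hck⟩ := hc
      have hw : wk hn hk (by omega) hc = wk hn (by omega) hkn hc :=
        vx_ext (kk_eq hk (by omega) (by omega) hkn hr)
      refine (ih (by omega)).trans ?_
      have a1 := adj_vk_wk hn hn' hk (by omega) hc
      have a2 := (adj_vk_wk hn hn' (k := k + 1) (by omega) hkn hc).symm
      rw [← hw] at a2
      refine SimpleGraph.Reachable.trans
        (v := wk hn hk (by omega) hc) (SimpleGraph.Adj.reachable ?_)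
        (SimpleGraph.Adj.reachable ?_)
      · rw [SimpleGraph.deleteEdges_adj]
        refine ⟨a1, ?_⟩
        rw [Set.mem_singleton_iff, Sym2.eq_iff]
        rintro (⟨h5, h6⟩ | ⟨h5, h6⟩)
        · have h7 := ek_injective (by omega) h1n (congrArg (fun x : Vx n => x.1.1) h5)
          have h8 : kk n k c = kk n 1 2 := congrArg (fun x : Vx n => x.1.1) h6
          have h9 := congrArg Prod.snd (Kk_inj h8).1
          exact hck (Option.some.inj h9) h7
        · exact ek_ne_kk (by decide) (congrArg (fun x : Vx n => x.1.1) h5)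
      · rw [SimpleGraph.deleteEdges_adj]
        refine ⟨a2, ?_⟩
        rw [Set.mem_singleton_iff, Sym2.eq_iff]
        rintro (⟨h5, h6⟩ | ⟨h5, h6⟩)
        · exact ek_ne_kk (by decide) (congrArg (fun x : Vx n => x.1.1) h6)
        · have h7 := ek_injective hkn h1n (congrArg (fun x : Vx n => x.1.1) h6)
          omega
  refine (hreach n (by omega) le_rfl).trans (SimpleGraph.Adj.reachable ?_)
  have a1 := adj_vk_wk hn hn' (by omega : 1 ≤ n) le_rfl (c := 2) (by decide)
  have hr : rho n 2 n = rho n 2 1 := by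
    rw [rho_two, rho_two, if_pos rfl, if_neg (by omega)]
    omega
  have hw : wk hn (by omega : 1 ≤ n) le_rfl (c := 2) (by decide) =
      wk hn le_rfl h1n (c := 2) (by decide) := vx_ext (kk_eq (by omega) le_rfl le_rfl h1n hr)
  rw [hw] at a1
  rw [SimpleGraph.deleteEdges_adj]
  refine ⟨a1, ?_⟩
  rw [Set.mem_singleton_iff, Sym2.eq_iff]
  rintro (⟨h5, h6⟩ | ⟨h5, h6⟩)
  · have h7 := ek_injective le_rfl h1n (congrArg (fun x : Vx n => x.1.1) h5)
    omega
  · exact ek_ne_kk (by decide) (congrArg (fun x : Vx n => x.1.1) h5)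

lemma length_cycle (hn : n % 2 = 0) (hn' : 2 ≤ n) {a : Vx n} {p : (Gn n).Walk a a}
    (hp : p.IsCycle) : n ≤ p.length + 1 := by
  classical
  have hH : TwoNbr {x : Vx n | x ∈ p.support} := by
    intro x hx
    have h1 := hp.ncard_neighborSet_toSubgraph_eq_two hx
    obtain ⟨b, c, hbc, h2⟩ := Set.ncard_eq_two.mp h1
    have hb : p.toSubgraph.Adj x b := by
      rw [← SimpleGraph.Subgraph.mem_neighborSet, h2]; simp
    have hc : p.toSubgraph.Adj x c := by
      rw [← SimpleGraph.Subgraph.mem_neighborSet, h2]; simp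
    exact ⟨b, (SimpleGraph.Walk.mem_verts_toSubgraph p).mp hb.snd_mem, c,
      (SimpleGraph.Walk.mem_verts_toSubgraph p).mp hc.snd_mem, hbc, hb.adj_sub, hc.adj_sub⟩
  have hex : ∀ k : Fin n, ∃ x ∈ p.support, x.1.1 = ek n (k + 1) := fun k =>
    all_ek hn hn' hH ⟨a, p.start_mem_support⟩ (by omega) (by omega)
  choose f hf hf' using hex
  have hinj : Function.Injective f := by
    intro k k' h
    have h1 := ek_injective (by omega) (by omega) ((hf' k).symm.trans (h ▸ hf' k'))
    exact Fin.ext (by omega)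
  have h1 : (Finset.univ.image f).card ≤ p.support.toFinset.card := by
    apply Finset.card_le_card
    intro x hx
    obtain ⟨k, -, rfl⟩ := Finset.mem_image.mp hx
    exact List.mem_toFinset.mpr (hf k)
  rw [Finset.card_image_of_injective _ hinj, Finset.card_univ, Fintype.card_fin] at h1
  exact h1.trans ((List.toFinset_card_le _).trans (by rw [SimpleGraph.Walk.length_support]))

lemma realized (n : ℕ) : ∃ m ≤ 12, IsRealizedBy (Gn n) m := by
  classical
  let X : Finset (S n) := (gens n).attach.image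
    (fun g => (⟨g.1, Subsemigroup.subset_closure g.2⟩ : S n))
  refine ⟨X.card, ?_, S n, inferInstance, X, rfl, ?_, ⟨SimpleGraph.Iso.refl⟩⟩
  · exact Finset.card_image_le.trans (by rw [Finset.card_attach]; exact card_gens n)
  · have hX : (X : Set (S n)) = ((↑) : S n → Bi n) ⁻¹' (gens n : Set (Bi n)) := by
      ext x
      simp only [X, Finset.coe_image, Set.mem_image, Finset.mem_coe, Finset.mem_attach, true_and,
        Subtype.exists, Set.mem_preimage]
      constructor
      · rintro ⟨g, hg, rfl⟩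
        exact hg
      · intro h
        exact ⟨x.1, h, rfl⟩
    rw [hX]
    exact Subsemigroup.closure_closure_coe_preimage

end graph

/-- **Main theorem.** There is a family of finite star-free graphs, each containing a cycle, whose
ranks are at most `12` and whose girths are unbounded. -/
theorem result : ∀ g : ℕ, ∃ (V : Type) (_ : Fintype V) (G : SimpleGraph V),
    IsStarFree G ∧ ¬ G.IsAcyclic ∧ g ≤ G.girth ∧ (∃ m, IsRealizedBy G m) ∧ graphRank G ≤ 12 := by
  intro g
  have hn : (2 * (g + 1)) % 2 = 0 := by omega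
  have hn' : 2 ≤ 2 * (g + 1) := by omega
  have hac := not_acyclic hn hn'
  obtain ⟨m, hm, hr⟩ := realized (2 * (g + 1))
  refine ⟨Vx (2 * (g + 1)), Fintype.ofFinite _, Gn (2 * (g + 1)), isStarFree_commutingGraph _,
    hac, ?_, ⟨m, hr⟩, (Nat.sInf_le hr).trans hm⟩
  obtain ⟨a, w, hw, hlen⟩ := SimpleGraph.exists_girth_eq_length.mpr hac
  rw [hlen]
  have := length_cycle hn hn' hw
  omega

end Pool.Agent.Results.MP_eff4ce_al.BoundedRankUnboundedGirth
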